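import Mathlib
import Pool.Agent.H48Z.SmallFields

/-!
# The Golomb method `G_2` and the Rickard-Golomb method `RG_1` share a Costas permutation of order 7

The permutation `f = (2, 1, 6, 4, 7, 3, 5)` is `G_2(9, a, a)` with `a^2 + a = 1` and also
`RG_1(8, b, b, 4, 4)` with `b^3 + b = 1`.
-/

set_option autoImplicit false

namespace Pool.Agent.Results.MP_c75f22_co.CommonOrderSeven

open Pool.Agent.H48Z.SmallFields

/-- `f`, read on `[n] = {1, ..., n}`, is a Costas permutation of order `n`: a bijection of `[n]`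
whose integer vectors `(i - j, f i - f j)`, `1 ≤ j < i ≤ n`, are pairwise distinct -/
def IsCostas (n : ℕ) (f : ℕ → ℕ) : Prop :=
  Set.BijOn f (Set.Icc 1 n) (Set.Icc 1 n) ∧
    ∀ i j k l : ℕ, 1 ≤ j → j < i → i ≤ n → 1 ≤ l → l < k → k ≤ n →
      ((i : ℤ) - j, (f i : ℤ) - f j) = ((k : ℤ) - l, (f k : ℤ) - f l) → (i, j) = (k, l)

/-- `α` is a primitive element of the finite field `F`: its multiplicative order is `q - 1` -/
def Primitive {F : Type} [Field F] [Fintype F] (α : F) : Prop :=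
  orderOf α = Fintype.card F - 1

/-- `g`, read on `[q - 2]`, is `G_2(q, α, β)`: it maps `[q - 2]` to `[q - 2]` and
`α ^ g i + β ^ i = 1` -/
def IsGolomb {F : Type} [Field F] [Fintype F] (α β : F) (g : ℕ → ℕ) : Prop :=
  ∀ i : ℕ, 1 ≤ i → i ≤ Fintype.card F - 2 →
    1 ≤ g i ∧ g i ≤ Fintype.card F - 2 ∧ α ^ g i + β ^ i = 1

/-- the method `G_2` produces `f` in order `n = q - 2` -/
def ProducedByG2 (n : ℕ) (f : ℕ → ℕ) : Prop :=
  ∃ (F : Type) (_ : Field F) (_ : Fintype F) (α β : F),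
    Fintype.card F = n + 2 ∧ Primitive α ∧ Primitive β ∧ IsGolomb α β f

/-- the method `RG_1` produces `f` in order `n = q - 1`: with `g = G_2(q, α, β)` and
`2 ≤ t₁, t₂ ≤ q - 2`, `f t₁ = t₂` and, for the other `i ∈ [q - 1]`,
`f i = ((g (((i - t₁ - 1) mod (q - 1)) + 1) + t₂ - 1) mod (q - 1)) + 1`; and `f` is Costas -/
def ProducedByRG1 (n : ℕ) (f : ℕ → ℕ) : Prop :=
  ∃ (F : Type) (_ : Field F) (_ : Fintype F) (α β : F) (g : ℕ → ℕ) (t₁ t₂ : ℕ),
    Fintype.card F = n + 1 ∧ Primitive α ∧ Primitive β ∧ IsGolomb α β g ∧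
    2 ≤ t₁ ∧ t₁ ≤ Fintype.card F - 2 ∧ 2 ≤ t₂ ∧ t₂ ≤ Fintype.card F - 2 ∧
    f t₁ = t₂ ∧
    (∀ i : ℕ, 1 ≤ i → i ≤ n → i ≠ t₁ →
      (f i : ℤ) = ((g ((((i : ℤ) - t₁ - 1) % (n : ℤ)).toNat + 1) : ℤ) + t₂ - 1) % (n : ℤ) + 1) ∧
    IsCostas n f

/-- the common permutation `(2, 1, 6, 4, 7, 3, 5)` -/
def f7 (i : ℕ) : ℕ := [2, 1, 6, 4, 7, 3, 5].getD (i - 1) 0

/-- the permutation `G_2(8, b, b) = (3, 6, 1, 5, 4, 2)` -/
def g6 (i : ℕ) : ℕ := [3, 6, 1, 5, 4, 2].getD (i - 1) 0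

theorem f7_costas : IsCostas 7 f7 := by
  refine ⟨⟨?_, ?_, ?_⟩, ?_⟩
  · rintro i ⟨h1, h2⟩
    interval_cases i <;> simp [f7]
  · rintro i ⟨h1, h2⟩ j ⟨h3, h4⟩
    interval_cases i <;> interval_cases j <;> simp [f7]
  · rintro j ⟨h1, h2⟩
    have : ∀ j ≤ 7, 1 ≤ j → ∃ i ≤ 7, 1 ≤ i ∧ f7 i = j := by decide
    obtain ⟨i, hi, hi', h⟩ := this j h2 h1
    exact ⟨i, ⟨hi', hi⟩, h⟩
  · have : ∀ i ∈ List.range 8, ∀ j ∈ List.range i, ∀ k ∈ List.range 8, ∀ l ∈ List.range k,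
        j = 0 ∨ l = 0 ∨ (i : ℤ) - j ≠ (k : ℤ) - l ∨ (f7 i : ℤ) - f7 j ≠ (f7 k : ℤ) - f7 l ∨
          (i = k ∧ j = l) := by
      decide +kernel
    intro i j k l h1 h2 h3 h4 h5 h6 h7
    rw [Prod.mk.injEq] at h7 ⊢
    have := this i (List.mem_range.2 (by omega)) j (List.mem_range.2 h2) k
      (List.mem_range.2 (by omega)) l (List.mem_range.2 h5)
    rcases this with h | h | h | h | h
    · omega
    · omega
    · exact absurd h7.1 h
    · exact absurd h7.2 h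
    · exact h

/-- **Q1 is false.** There is an order `n > 5` (namely `n = 7`) and a Costas permutation of order
`n` that is produced both by the method `G_2` and by the method `RG_1`. -/
theorem result : ∃ n : ℕ, 5 < n ∧ ∃ f : ℕ → ℕ,
    IsCostas n f ∧ ProducedByG2 n f ∧ ProducedByRG1 n f := by
  refine ⟨7, by norm_num, f7, f7_costas, ?_, ?_⟩
  · refine ⟨F9, inferInstance, inferInstance, x9, x9, card9, ?_, ?_, ?_⟩
    · rw [Primitive, card9, ord9]
    · rw [Primitive, card9, ord9]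
    · intro i h1 h2
      rw [card9] at h2 ⊢
      interval_cases i <;> decide +kernel
  · refine ⟨F8, inferInstance, inferInstance, x8, x8, g6, 4, 4, card8, ?_, ?_, ?_, by norm_num, ?_,
      by norm_num, ?_, rfl, ?_, f7_costas⟩
    · rw [Primitive, card8, ord8]
    · rw [Primitive, card8, ord8]
    · intro i h1 h2
      rw [card8] at h2 ⊢
      interval_cases i <;> decide +kernel
    · rw [card8]; norm_num
    · rw [card8]; norm_num
    · intro i h1 h2 h3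
      interval_cases i <;> first | exact absurd rfl h3 | decide +kernel

end Pool.Agent.Results.MP_c75f22_co.CommonOrderSeven
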